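import Pool.Agent.H29.AB.Iface
import Pool.Agent.H9.FC.LocCM
import Pool.Agent.H24.AB.ExFam

/-!
# Project AB, part (D), module M3: an odd number of good places above `u` needs a Wieferich prime
-/

open Polynomial NumberField H9FC H9AB IsDedekindDomain H29AB

namespace H73AB

variable {F K : Type*} [Field F] [NumberField F] [Field K] [NumberField K] [Algebra F K]

/-- an odd number of good indices: `p` is a Wieferich prime -/
theorem wief_fam {p : ℕ} [Fact p.Prime] (hS : SymF F K p) (hp : 2 * Module.finrank ℚ K + 3 ≤ p)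
    {a b c : 𝓞 K} (h : FSol K p a b c) (hcp : CopAt K p a b c)
    {Ω : Type} [Field Ω] [IsAlgClosed Ω] [CharP Ω p] (w : 𝓞 F →+* Ω)
    (ψ : Fin (Module.finrank F K) → (𝓞 K →+* Ω)) (hψ : IsRelFam w ψ)
    (hodd : Odd (Nat.card {i // ψ i a ≠ 0 ∧ ψ i b ≠ 0 ∧ ψ i c ≠ 0})) :
    p ^ 2 ∣ 2 ^ (p - 1) - 1 := by
  classical
  have hd0 : 0 < Module.finrank ℚ K := Module.finrank_pos
  have hT := hS a b c h hcp Ω w ψ hψ
  rw [Nat.card_eq_fintype_card] at hodd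
  obtain ⟨v, hv⟩ := hT.exists_neg_one hodd
  by_contra hW
  have ha : ψ v.1 a ≠ 0 := v.2.1
  refine cm_one (by omega) (by omega) h hW (ψ v.1) ha ?_
  rw [div_eq_iff ha] at hv
  linear_combination hv

/-- M3 from a family as in M2' -/
theorem sym_wief_of {p : ℕ} [Fact p.Prime] (hS : SymF F K p) (hp : 2 * Module.finrank ℚ K + 3 ≤ p)
    (a b c : K) (u : HeightOneSpectrum (𝓞 F))
    (hfam : ∃ (a' b' c' : 𝓞 K) (w : 𝓞 F →+* AlgebraicClosure (ZMod p))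
      (ψ : Fin (Module.finrank F K) → (𝓞 K →+* AlgebraicClosure (ZMod p))),
      FSol K p a' b' c' ∧ CopAt K p a' b' c' ∧ IsRelFam w ψ ∧
      Nat.card {i // ψ i a' ≠ 0 ∧ ψ i b' ≠ 0 ∧ ψ i c' ≠ 0} = good u a b c)
    (hodd : Odd (good u a b c)) : p ^ 2 ∣ 2 ^ (p - 1) - 1 := by
  obtain ⟨a', b', c', w, ψ, h1, h2, h3, h4⟩ := hfam
  exact wief_fam hS hp h1 h2 w ψ h3 (by rw [h4]; exact hodd)

/-- M3: (1) -/
theorem sym_wief {p : ℕ} [Fact p.Prime] (hS : SymF F K p) (hp : 2 * Module.finrank ℚ K + 3 ≤ p)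
    (a b c : K) (ha : a ≠ 0) (hb : b ≠ 0) (hc : c ≠ 0) (h : a ^ p + b ^ p + c ^ p = 0)
    (u : HeightOneSpectrum (𝓞 F)) (hu : (p : 𝓞 F) ∈ u.asIdeal) (hodd : Odd (good u a b c)) :
    p ^ 2 ∣ 2 ^ (p - 1) - 1 := by
  obtain ⟨l, a', b', c', w, ψ, -, -, -, -, h1, h2, -, h3, -, -, h4⟩ :=
    H24AB.exists_fam (AlgebraicClosure (ZMod p)) a b c ha hb hc h u hu
  exact sym_wief_of hS hp a b c u ⟨a', b', c', w, ψ, h1, h2, h3, h4⟩ hodd

end H73AB
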